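import Pool.Agent.H824.SaC

/-!
# A superattracting germ whose postcritical set is a topological cone, and which is not
topologically conjugated to its leading homogeneous term

The germ is `f(z) = (z₀² - z₁⁴z₂², z₁², z₂², …, z_{n-1}²)`, `n ≥ 3`, with the leading term
`H(z) = (z₀², z₁², …, z_{n-1}²)`. Its critical set is the union of the coordinate hyperplanes, its
postcritical set is this union together with the hypersurface `z₀ = -z₁²z₂`. The homeomorphism
`(z₀, z₁, z₂, …) ↦ (|z₀|² z₀, z₁, conj z₂, …)` maps a standard cone onto it. There is no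
topological conjugation, since the critical set of `H` is invariant and that of `f` is not.
-/

namespace Pool.Agent.Results.MP_e6fcc0_an.ConjugateCone

open Pool.Agent.H824.Sa

theorem result (n : ℕ) (hn : 3 ≤ n) :
    ∃ (f : (Fin n → ℂ) → (Fin n → ℂ)) (H : Fin n → MvPolynomial (Fin n) ℂ),
      IsSuperattracting f ∧ IsLeadingTerm f 2 H ∧ IsNonDegenerate H ∧ IsTopologicalCone f ∧
        ¬ IsTopConj f (polyMap H) := by
  obtain ⟨m, rfl⟩ := Nat.exists_eq_add_of_le' hn
  exact ⟨F m, Q m, isSuperattracting_F m, isLeadingTerm_F m, isNonDegenerate_Q m,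
    isTopologicalCone_F m, not_conj m⟩

end Pool.Agent.Results.MP_e6fcc0_an.ConjugateCone
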